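import Mathlib

/-!
# The abcd equation versus its integer form

There are infinitely many positive integers `n` for which `n = (a/b + b/a)(c/d + d/c)` is solvable
in positive integers while `n = (a + 1/a)(b + 1/b)` is not.
-/

set_option autoImplicit false

namespace Pool.Agent.Results.MP_2bef4d_nt.InfinitelyMany

/-- The abcd equation is solvable for `n`. -/
def AbcdSolvable (n : ℕ) : Prop :=
  ∃ a b c d : ℕ, 0 < a ∧ 0 < b ∧ 0 < c ∧ 0 < d ∧
    (n : ℚ) = ((a : ℚ) / b + (b : ℚ) / a) * ((c : ℚ) / d + (d : ℚ) / c)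

/-- The integer form is solvable for `n`. -/
def IntegerFormSolvable (n : ℕ) : Prop :=
  ∃ a b : ℕ, 0 < a ∧ 0 < b ∧ (n : ℚ) = ((a : ℚ) + (a : ℚ)⁻¹) * ((b : ℚ) + (b : ℚ)⁻¹)

/-- Vieta jumping -/
lemma vieta : ∀ (N a b k : ℕ), a + b ≤ N → 0 < a → 0 < b → a ^ 2 + b ^ 2 + 1 = k * (a * b) →
    k = 3 := by
  intro N
  induction N with
  | zero => intro a b k h ha hb _; omega
  | succ N ih =>
    have key : ∀ a b k : ℕ, a + b ≤ N + 1 → 0 < a → 0 < b → a ≤ b →
        a ^ 2 + b ^ 2 + 1 = k * (a * b) → k = 3 := by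
      intro a b k h ha hb hab heq
      rcases Nat.lt_or_ge a b with hlt | hge
      · -- replace b by b' = k a - b
        have h1 : b ≤ k * a := by
          by_contra hcon
          push Not at hcon
          have : k * (a * b) < b ^ 2 := by nlinarith
          nlinarith
        obtain ⟨b', hb'⟩ := Nat.exists_eq_add_of_le h1
        -- k a = b + b', b b' = a ^ 2 + 1
        have h2 : b * b' = a ^ 2 + 1 := by
          have : k * (a * b) = (b + b') * b := by rw [← hb']; ring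
          nlinarith
        have hb'pos : 0 < b' := by
          rcases Nat.eq_zero_or_pos b' with h0 | h0
          · rw [h0] at h2; nlinarith
          · exact h0
        have h3 : b' ≤ a := by
          by_contra hcon
          push Not at hcon
          have : (a + 1) * (a + 1) ≤ b * b' := Nat.mul_le_mul hlt hcon
          nlinarith
        refine ih a b' k (by omega) ha hb'pos ?_
        have : k * (a * b') = (b + b') * b' := by rw [← hb']; ring
        nlinarith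
      · have : a = b := le_antisymm hab hge
        subst this
        have h4 : a ∣ 1 := by
          have h5 : a ∣ a ^ 2 + a ^ 2 + 1 := by
            rw [heq]; exact ⟨k * a, by ring⟩
          have h6 : a ∣ a ^ 2 + a ^ 2 := ⟨a + a, by ring⟩
          exact (Nat.dvd_add_right h6).mp h5
        have h7 : a = 1 := Nat.dvd_one.mp h4
        subst h7
        omega
    intro a b k h ha hb heq
    rcases le_total a b with hab | hab
    · exact key a b k h ha hb hab heq
    · exact key b a k (by omega) hb ha hab (by rw [← Nat.add_comm (a ^ 2), heq]; ring)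

/-- If the integer form is solvable for `n`, then `n - 4` is a square. -/
lemma square_of_integerForm {n : ℕ} (h : IntegerFormSolvable n) : ∃ s : ℤ, (n : ℤ) - 4 = s ^ 2 := by
  obtain ⟨a, b, ha, hb, h⟩ := h
  have ha' : (a : ℚ) ≠ 0 := by positivity
  have hb' : (b : ℚ) ≠ 0 := by positivity
  have h1 : (a ^ 2 + 1) * (b ^ 2 + 1) = n * (a * b) := by
    have : ((a : ℚ) ^ 2 + 1) * ((b : ℚ) ^ 2 + 1) = n * (a * b) := by
      rw [h]; field_simp
    exact_mod_cast this
  have h2 : (a ^ 2 + b ^ 2 + 1) + a * b * (a * b) = n * (a * b) := by rw [← h1]; ring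
  have h3 : a * b ∣ a ^ 2 + b ^ 2 + 1 := by
    have h4 : a * b ∣ (a ^ 2 + b ^ 2 + 1) + a * b * (a * b) := by rw [h2]; exact ⟨n, by ring⟩
    exact (Nat.dvd_add_left ⟨a * b, rfl⟩).mp h4
  obtain ⟨k, hk⟩ := h3
  have hk3 : k = 3 := vieta (a + b) a b k le_rfl ha hb (by rw [hk]; ring)
  subst hk3
  have hn : n = a * b + 3 := by
    have hab : 0 < a * b := Nat.mul_pos ha hb
    have : n * (a * b) = (a * b + 3) * (a * b) := by rw [← h2, hk]; ring
    exact Nat.eq_of_mul_eq_mul_right hab this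
  refine ⟨(a : ℤ) - b, ?_⟩
  have hk' : (a : ℤ) ^ 2 + b ^ 2 + 1 = a * b * 3 := by exact_mod_cast hk
  rw [hn]
  push_cast
  linarith

/-- The sequence with `c_n c_{n+2} = c_{n+1}^4 + 1`. -/
def c : ℕ → ℕ
  | 0 => 1
  | 1 => 1
  | (n + 2) => (c (n + 1) ^ 4 + 1) / c n

lemma c_inv (n : ℕ) : 0 < c n ∧ 0 < c (n + 1) ∧ c n ∣ c (n + 1) ^ 4 + 1 ∧ c (n + 1) ∣ c n ^ 4 + 1 := by
  induction n with
  | zero => decide
  | succ n ih =>
    obtain ⟨h1, h2, ⟨w, hw⟩, h4⟩ := ih
    have hc : c (n + 2) = w := by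
      rw [c, hw]; exact Nat.mul_div_cancel_left w h1
    have hwpos : 0 < w := by
      rcases Nat.eq_zero_or_pos w with h0 | h0
      · rw [h0] at hw; omega
      · exact h0
    rw [show n + 1 + 1 = n + 2 from rfl, hc]
    refine ⟨h2, hwpos, ?_, ⟨c n, by rw [hw]; ring⟩⟩
    -- c (n+1) ∣ w ^ 4 + 1
    have hz1 : (c (n + 1) : ℤ) ∣ (c n : ℤ) ^ 4 + 1 := by exact_mod_cast h4
    have hz2 : (c (n + 1) : ℤ) ^ 4 + 1 = c n * w := by exact_mod_cast hw
    have hz3 : (c (n + 1) : ℤ) ∣ (w : ℤ) ^ 4 + 1 := by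
      obtain ⟨t, ht⟩ := hz1
      have e : (w : ℤ) ^ 4 + 1 = c (n + 1) * (t * w ^ 4) -
          ((c n * w : ℤ) ^ 4 - 1) := by
        have : (w : ℤ) ^ 4 * ((c n : ℤ) ^ 4 + 1) = w ^ 4 * (c (n + 1) * t) := by rw [ht]
        linear_combination this
      rw [e, ← hz2]
      exact Dvd.dvd.sub ⟨_, rfl⟩ ⟨(c (n + 1) : ℤ) ^ 3 * ((c (n + 1) : ℤ) ^ 12 +
        4 * (c (n + 1) : ℤ) ^ 8 + 6 * (c (n + 1) : ℤ) ^ 4 + 4), by ring⟩
    exact_mod_cast hz3

lemma c_rec (n : ℕ) : c n * c (n + 2) = c (n + 1) ^ 4 + 1 := by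
  obtain ⟨h1, -, ⟨w, hw⟩, -⟩ := c_inv n
  have hc : c (n + 2) = w := by
    rw [c, hw]; exact Nat.mul_div_cancel_left w h1
  rw [hc, hw]

/-- the value of `n` attached to the pair `(c_k, c_{k+1})` -/
lemma c_n (k : ℕ) : ∃ n : ℕ, n * (c k * c (k + 1)) = (c k ^ 2 + c (k + 1) ^ 2) ^ 2 + 1 := by
  obtain ⟨h1, h2, h3, h4⟩ := c_inv k
  have hcop : Nat.Coprime (c k) (c (k + 1)) := by
    have hg := Nat.gcd_dvd_left (c k) (c (k + 1))
    have hg2 := Nat.gcd_dvd_right (c k) (c (k + 1))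
    have h5 : Nat.gcd (c k) (c (k + 1)) ∣ c k ^ 4 + 1 := hg2.trans h4
    have h6 : Nat.gcd (c k) (c (k + 1)) ∣ c k ^ 4 := hg.trans ⟨c k ^ 3, by ring⟩
    exact Nat.dvd_one.mp ((Nat.dvd_add_right h6).mp h5)
  have e1 : c k ∣ (c k ^ 2 + c (k + 1) ^ 2) ^ 2 + 1 := by
    have : (c k ^ 2 + c (k + 1) ^ 2) ^ 2 + 1 =
        c k * (c k ^ 3 + 2 * c k * c (k + 1) ^ 2) + (c (k + 1) ^ 4 + 1) := by ring
    rw [this]; exact Dvd.dvd.add ⟨_, rfl⟩ h3
  have e2 : c (k + 1) ∣ (c k ^ 2 + c (k + 1) ^ 2) ^ 2 + 1 := by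
    have : (c k ^ 2 + c (k + 1) ^ 2) ^ 2 + 1 =
        c (k + 1) * (c (k + 1) ^ 3 + 2 * c (k + 1) * c k ^ 2) + (c k ^ 4 + 1) := by ring
    rw [this]; exact Dvd.dvd.add ⟨_, rfl⟩ h4
  obtain ⟨n, hn⟩ := Nat.Coprime.mul_dvd_of_dvd_of_dvd hcop e1 e2
  exact ⟨n, by rw [hn]; ring⟩

lemma c_mod (k : ℕ) : ((c (4 * k + 2) : ℕ) : ZMod 19) * ((c (4 * k + 3) : ℕ) : ZMod 19) = 15 ∧
    ((c (4 * k + 2) : ℕ) : ZMod 19) ^ 2 + ((c (4 * k + 3) : ℕ) : ZMod 19) ^ 2 = 8 := by
  have hrec : ∀ n, ((c n : ℕ) : ZMod 19) * ((c (n + 2) : ℕ) : ZMod 19) =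
      ((c (n + 1) : ℕ) : ZMod 19) ^ 4 + 1 := by
    intro n
    have := congrArg (Nat.cast : ℕ → ZMod 19) (c_rec n)
    push_cast at this
    exact this
  have step : ∀ n (a b e : ZMod 19), ((c n : ℕ) : ZMod 19) = a → ((c (n + 1) : ℕ) : ZMod 19) = b →
      e * a = 1 → ((c (n + 2) : ℕ) : ZMod 19) = e * (b ^ 4 + 1) := by
    intro n a b e h1 h2 h3
    have := hrec n
    rw [h1, h2] at this
    rw [← this, ← mul_assoc, h3, one_mul]
  have h : ∀ k : ℕ, (((c (4 * k) : ℕ) : ZMod 19) = 1 ∧ ((c (4 * k + 1) : ℕ) : ZMod 19) = 1) ∨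
      (((c (4 * k) : ℕ) : ZMod 19) = 18 ∧ ((c (4 * k + 1) : ℕ) : ZMod 19) = 18) := by
    intro k
    induction k with
    | zero => left; constructor <;> simp [c]
    | succ k ih =>
      rw [show 4 * (k + 1) = 4 * k + 4 by ring]
      rcases ih with ⟨h0, h1⟩ | ⟨h0, h1⟩
      · right
        have h2 := step (4 * k) 1 1 1 h0 h1 (by decide)
        have h3 := step (4 * k + 1) 1 _ 1 h1 h2 (by decide)
        have h4 := step (4 * k + 2) _ _ 10 h2 h3 (by decide)
        have h5 := step (4 * k + 3) _ _ 9 h3 h4 (by decide)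
        exact ⟨h4.trans (by decide), h5.trans (by decide)⟩
      · left
        have h2 := step (4 * k) 18 18 18 h0 h1 (by decide)
        have h3 := step (4 * k + 1) 18 _ 18 h1 h2 (by decide)
        have h4 := step (4 * k + 2) _ _ 9 h2 h3 (by decide)
        have h5 := step (4 * k + 3) _ _ 10 h3 h4 (by decide)
        exact ⟨h4.trans (by decide), h5.trans (by decide)⟩
  rcases h k with ⟨h0, h1⟩ | ⟨h0, h1⟩
  · have h2 := step (4 * k) 1 1 1 h0 h1 (by decide)
    have h3 := step (4 * k + 1) 1 _ 1 h1 h2 (by decide)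
    rw [h2, h3]
    decide
  · have h2 := step (4 * k) 18 18 18 h0 h1 (by decide)
    have h3 := step (4 * k + 1) 18 _ 18 h1 h2 (by decide)
    rw [h2, h3]
    decide

lemma c_mono (n : ℕ) : n ≤ c (n + 1) ∧ c (n + 1) < c (n + 2) := by
  induction n with
  | zero => decide
  | succ n ih =>
    refine ⟨by show n + 1 ≤ c (n + 2); omega, ?_⟩
    have h := c_rec (n + 1)
    rw [show n + 1 + 2 = n + 3 from rfl, show n + 1 + 1 = n + 2 from rfl] at h ⊢
    by_contra hcon
    push Not at hcon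
    have h1 : c (n + 1) * c (n + 3) ≤ c (n + 2) * c (n + 2) := Nat.mul_le_mul ih.2.le hcon
    have h2 : 1 ≤ c (n + 2) := (c_inv (n + 1)).2.1
    nlinarith [Nat.pow_le_pow_right h2 (show 2 ≤ 4 by norm_num)]

/-- There are infinitely many positive integers `n` for which the abcd equation is solvable but
the integer form is not solvable. -/
theorem result : {n : ℕ | 0 < n ∧ AbcdSolvable n ∧ ¬ IntegerFormSolvable n}.Infinite := by
  apply Set.infinite_of_not_bddAbove
  rintro ⟨M, hM⟩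
  obtain ⟨n, hn⟩ := c_n (4 * M + 2)
  obtain ⟨hp1, hp2, -, -⟩ := c_inv (4 * M + 2)
  have hbig : M < n := by
    have h1 := (c_mono (4 * M + 2)).1
    rw [show 4 * M + 2 + 1 = 4 * M + 3 from rfl] at *
    by_contra hcon
    push Not at hcon
    have h2 : n * (c (4 * M + 2) * c (4 * M + 3)) ≤ M * (c (4 * M + 2) * c (4 * M + 3)) :=
      Nat.mul_le_mul_right _ hcon
    have h3 : M * (c (4 * M + 2) * c (4 * M + 3)) ≤
        (c (4 * M + 2) * c (4 * M + 3)) * (c (4 * M + 2) * c (4 * M + 3)) := by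
      apply Nat.mul_le_mul_right
      nlinarith
    have h4 : (c (4 * M + 2) * c (4 * M + 3)) * (c (4 * M + 2) * c (4 * M + 3)) ≤
      (c (4 * M + 2) ^ 2 + c (4 * M + 3) ^ 2) ^ 2 := by
      have : c (4 * M + 2) * c (4 * M + 3) ≤ c (4 * M + 2) ^ 2 + c (4 * M + 3) ^ 2 := by
        nlinarith [sq_nonneg ((c (4 * M + 2) : ℤ) - c (4 * M + 3))]
      calc _ ≤ (c (4 * M + 2) ^ 2 + c (4 * M + 3) ^ 2) * (c (4 * M + 2) ^ 2 + c (4 * M + 3) ^ 2) :=
            Nat.mul_le_mul this this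
        _ = _ := by ring
    omega
  have hmem : n ∈ {n : ℕ | 0 < n ∧ AbcdSolvable n ∧ ¬ IntegerFormSolvable n} := by
    refine ⟨by omega, ⟨c (4 * M + 2) ^ 2 + c (4 * M + 3) ^ 2, 1, c (4 * M + 2), c (4 * M + 3),
      by positivity, one_pos, hp1, hp2, ?_⟩, ?_⟩
    · have h1 : (c (4 * M + 2) : ℚ) ≠ 0 := by
        exact_mod_cast hp1.ne'
      have h2 : (c (4 * M + 3) : ℚ) ≠ 0 := by
        exact_mod_cast hp2.ne'
      have h3 : (c (4 * M + 2) : ℚ) ^ 2 + (c (4 * M + 3) : ℚ) ^ 2 ≠ 0 := by positivity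
      have h4 : (n : ℚ) * (c (4 * M + 2) * c (4 * M + 3)) =
          ((c (4 * M + 2) : ℚ) ^ 2 + (c (4 * M + 3) : ℚ) ^ 2) ^ 2 + 1 := by exact_mod_cast hn
      push_cast
      field_simp
      linear_combination h4
    · intro hint
      obtain ⟨s, hs⟩ := square_of_integerForm hint
      obtain ⟨hm1, hm2⟩ := c_mod M
      have hn' : (n : ZMod 19) * 15 = 8 ^ 2 + 1 := by
        have := congrArg (Nat.cast : ℕ → ZMod 19) hn
        push_cast at this
        rw [show 4 * M + 2 + 1 = 4 * M + 3 from rfl, hm1, hm2] at this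
        exact this
      have hn17 : (n : ZMod 19) = 17 := by
        have : (n : ZMod 19) * 15 * 14 = (8 ^ 2 + 1) * 14 := by rw [hn']
        calc (n : ZMod 19) = (n : ZMod 19) * 15 * 14 := by
              rw [mul_assoc, show (15 : ZMod 19) * 14 = 1 by decide, mul_one]
          _ = _ := this
          _ = 17 := by decide
      have hs' := congrArg (Int.cast : ℤ → ZMod 19) hs
      push_cast at hs'
      rw [hn17] at hs'
      generalize ((s : ℤ) : ZMod 19) = t at hs'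
      revert t
      decide
  exact absurd (hM hmem) (by omega)

end Pool.Agent.Results.MP_2bef4d_nt.InfinitelyMany
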